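import Pool.Agent.Helper32.LK.Final

/-!
# An upper bound for `M_k(D)` and `M'_k(D)` for large `k`

Partial answer to Q1 and Q2 of MP_f97382_co: for large `k` the leading constants are at most
`2k - 3/2 + η`.
-/

set_option autoImplicit false

namespace Pool.Agent.Results.MP_f97382_co.LargeK

open Pool.Agent.Helper14.Square Pool.Agent.Helper32.Sq

/-- For every `η > 0` there is `k0` such that for every `k ≥ k0` there is a constant `C` with
`M_k(D) ≤ M'_k(D) ≤ (2k - 3/2 + η) D + C` for all `D`. -/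
theorem result (η : ℝ) (hη : 0 < η) : ∃ k0 : ℕ, ∀ k : ℕ, k0 ≤ k → ∃ C : ℝ, ∀ D : ℕ,
    (M k D : ℝ) ≤ M' k D ∧ (M' k D : ℝ) ≤ (2 * k - 3 / 2 + η) * D + C :=
  Pool.Agent.Helper32.LK.M_large η hη

end Pool.Agent.Results.MP_f97382_co.LargeK
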